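import Pool.Agent.H224R2.Mah.Defs

/-! Task A1: the function `U` is holomorphic on the disc, `ζ U'(ζ) = (8/π²) arctan ζ`. -/

namespace Pool.Agent.H224R2.Mah

open MeasureTheory Set Filter Topology
open scoped ENNReal RealInnerProductSpace

/-- A1. `U` is holomorphic on the disc with derivative `U'`, `ζ U'(ζ) = (8/π²) arctan ζ`. -/
theorem A1_deriv {ζ : ℂ} (hζ : ‖ζ‖ < 1) :
    HasDerivAt U (U' ζ) ζ ∧ DifferentiableAt ℂ U' ζ ∧
      ζ * U' ζ = ((8 / Real.pi ^ 2 : ℝ) : ℂ) * Complex.arctan ζ := by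
  obtain ⟨r, hr1, hr2⟩ := exists_between hζ
  have hr0 : 0 ≤ r := (norm_nonneg ζ).trans hr1.le
  have hsum : Summable (fun k : ℕ => (r ^ 2) ^ k) :=
    summable_geometric_of_lt_one (by positivity) (by nlinarith)
  have hmem : ζ ∈ Metric.ball (0 : ℂ) r := by simpa using hr1
  have hne : ∀ k : ℕ, ((2 * k + 1 : ℕ) : ℂ) ≠ 0 := fun k => by
    exact_mod_cast Nat.succ_ne_zero (2 * k)
  have hbd : ∀ (k : ℕ) (y : ℂ), y ∈ Metric.ball (0 : ℂ) r →
      ‖(-1 : ℂ) ^ k * y ^ (2 * k) / ((2 * k + 1 : ℕ) : ℂ)‖ ≤ (r ^ 2) ^ k := by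
    intro k y hy
    have hy' : ‖y‖ ≤ r := by
      rw [mem_ball_zero_iff] at hy
      exact hy.le
    rw [norm_div, norm_mul, norm_pow, norm_neg, norm_one, one_pow, one_mul, norm_pow,
      Complex.norm_natCast, ← pow_mul]
    have h1 : (1 : ℝ) ≤ ((2 * k + 1 : ℕ) : ℝ) := by exact_mod_cast Nat.succ_le_succ (Nat.zero_le _)
    calc ‖y‖ ^ (2 * k) / ((2 * k + 1 : ℕ) : ℝ) ≤ ‖y‖ ^ (2 * k) := div_le_self (by positivity) h1
      _ ≤ r ^ (2 * k) := pow_le_pow_left₀ (norm_nonneg _) hy' _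
  refine ⟨?_, ?_, ?_⟩
  · have h := hasDerivAt_tsum_of_isPreconnected (𝕜 := ℂ)
      (g := fun (k : ℕ) (z : ℂ) => (-1 : ℂ) ^ k * z ^ (2 * k + 1) / ((2 * k + 1 : ℕ) : ℂ) ^ 2)
      (g' := fun (k : ℕ) (z : ℂ) => (-1 : ℂ) ^ k * z ^ (2 * k) / ((2 * k + 1 : ℕ) : ℂ))
      hsum Metric.isOpen_ball (convex_ball (0 : ℂ) r).isPreconnected (fun k y _ => ?_) hbd
      (Metric.mem_ball_self (lt_of_le_of_lt (norm_nonneg ζ) hr1)) ?_ hmem
    · exact h.const_mul _
    · have h1 : HasDerivAt (fun z : ℂ => z ^ (2 * k + 1)) (((2 * k + 1 : ℕ) : ℂ) * y ^ (2 * k)) y := by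
        simpa using hasDerivAt_pow (2 * k + 1) y
      have h2 := (h1.const_mul ((-1 : ℂ) ^ k)).div_const (((2 * k + 1 : ℕ) : ℂ) ^ 2)
      refine h2.congr_deriv ?_
      have := hne k
      field_simp
    · have : (fun k : ℕ => (-1 : ℂ) ^ k * (0 : ℂ) ^ (2 * k + 1) / ((2 * k + 1 : ℕ) : ℂ) ^ 2) =
          fun _ => 0 := by
        funext k
        simp
      rw [this]
      exact summable_zero
  · have h : DifferentiableOn ℂ
        (fun z : ℂ => ∑' k : ℕ, (-1 : ℂ) ^ k * z ^ (2 * k) / ((2 * k + 1 : ℕ) : ℂ))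
        (Metric.ball 0 r) :=
      Complex.differentiableOn_tsum_of_summable_norm hsum
        (fun k => by fun_prop) Metric.isOpen_ball hbd
    exact (h.differentiableAt (Metric.isOpen_ball.mem_nhds hmem)).const_mul _
  · have h := (Complex.hasSum_arctan hζ).tsum_eq
    rw [← h]
    unfold U'
    rw [mul_left_comm, ← tsum_mul_left]
    congr 1
    refine tsum_congr fun k => ?_
    rw [pow_succ]
    ring

end Pool.Agent.H224R2.Mah
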